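import Pool.Agent.K3h73.KumC

/-!
# Brick K (St_kum)
-/

set_option autoImplicit false

namespace Pool.Agent.K3h73

open Polynomial Pool.Agent.K3h17 Pool.Agent.Y241.WR

/-- Characters separate the elements of a finite abelian group from a subgroup. -/
theorem exists_char {A : Type} [CommGroup A] [Finite A] (B : Subgroup A) (a : A) (ha : a ∉ B)
    (k : Type) [Field k] [IsAlgClosed k] [CharZero k] :
    ∃ χ : A →* kˣ, (∀ b ∈ B, χ b = 1) ∧ χ a ≠ 1 := by
  have h0 : NeZero ((Monoid.exponent (A ⧸ B) : ℕ) : k) :=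
    ⟨Nat.cast_ne_zero.2 Monoid.exponent_ne_zero_of_finite⟩
  have h1 : ((a : A) : A ⧸ B) ≠ 1 := by
    rw [Ne, QuotientGroup.eq_one_iff]; exact ha
  obtain ⟨φ, hφ⟩ := CommGroup.exists_apply_ne_one_of_hasEnoughRootsOfUnity (A ⧸ B) k h1
  refine ⟨φ.comp (QuotientGroup.mk' B), fun b hb => ?_, hφ⟩
  rw [MonoidHom.comp_apply, QuotientGroup.mk'_apply, (QuotientGroup.eq_one_iff b).2 hb, map_one]

theorem mem_range_of_alg {F E : Type} [Field F] [IsAlgClosed F] [Field E] [Algebra F E] (s : E)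
    (hs : IsAlgebraic F s) : s ∈ Set.range (algebraMap F E) := by
  have hint := hs.isIntegral
  have h1 := IsAlgClosed.degree_eq_one_of_irreducible F (minpoly.irreducible hint)
  exact minpoly.mem_range_of_degree_eq_one F s h1

/-- The roots of `S - T` are simple. -/
theorem nodup_roots_sub {F E : Type} [Field F] [IsAlgClosed F] [CharZero F] [Field E]
    [Algebra F E] (S : F[X]) (hS : 0 < S.natDegree) (T : E) (hT : Transcendental F T) :
    (S.map (algebraMap F E) - C T).roots.Nodup := by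
  classical
  have : CharZero E := charZero_of_injective_algebraMap (algebraMap F E).injective
  have hQ0 : S.map (algebraMap F E) - C T ≠ 0 := by
    intro h
    have h1 : (S.map (algebraMap F E) - C T).natDegree = S.natDegree := by
      rw [natDegree_sub_C, natDegree_map]
    rw [h, natDegree_zero] at h1
    omega
  rw [Multiset.nodup_iff_count_le_one]
  intro s
  rw [count_roots]
  by_contra hcon
  push Not at hcon
  have h2 := (one_lt_rootMultiplicity_iff_isRoot hQ0).1 hcon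
  have hr : s ∈ Set.range (algebraMap F E) := by
    have h3 : (derivative S).aeval s = 0 := by
      have := h2.2
      rw [IsRoot.def, derivative_sub, derivative_C, sub_zero, derivative_map,
        eval_map_algebraMap] at this
      exact this
    have h4 : derivative S ≠ 0 := by
      intro h
      have := derivative_eq_zero.1 h
      omega
    exact mem_range_of_alg s ⟨_, h4, h3⟩
  obtain ⟨a, rfl⟩ := hr
  have h6 := h2.1
  rw [IsRoot.def, eval_sub, eval_C, eval_map_algebraMap, aeval_algebraMap_apply,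
    sub_eq_zero] at h6
  apply hT
  rw [← h6]
  exact isAlgebraic_algebraMap _

/-- The product over the embeddings with a given value at `x`. -/
theorem fiber_prod {K Ω E : Type} [Field K] [Field Ω] [Algebra (RatFunc K) Ω] [Algebra K Ω]
    [IsScalarTower K (RatFunc K) Ω] [Field E] [Algebra K E] [IsAlgClosed E]
    [FiniteDimensional (RatFunc K) Ω] [IsGalois (RatFunc K) Ω]
    (P : Subgroup (Ω ≃ₐ[RatFunc K] Ω)) [Fintype ((Ω ≃ₐ[RatFunc K] Ω) ⧸ P)]
    (n : ℕ) (Φ : Fin n → (Ω →ₐ[K] E)) (s : E) (I : Finset (Fin n))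
    (hI : ∀ i, i ∈ I ↔ Φ i (xx K Ω) = s)
    (hinj : ∀ i j, ∀ γ ∈ P, (∀ z, Φ i z = Φ j (γ z)) → i = j)
    (hsurj : ∀ Φ' : Ω →ₐ[K] E, Φ' (xx K Ω) = s → ∃ i, ∃ γ ∈ P, ∀ z, Φ' z = Φ i (γ z))
    (g : (Ω →ₐ[K] E) → E) (hg : ∀ Φ, ∀ p ∈ P, g (cmp Φ p) = g Φ) (Ψ : Ω →ₐ[K] E)
    (hΨ : Ψ (xx K Ω) = s) :
    ∏ i ∈ I, g (Φ i) = ∏ q : (Ω ≃ₐ[RatFunc K] Ω) ⧸ P, g (cmp Ψ q.out) := by
  classical
  have h1 : ∀ q : (Ω ≃ₐ[RatFunc K] Ω) ⧸ P, ∃ i, ∃ γ ∈ P, cmp Ψ q.out = cmp (Φ i) γ := by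
    intro q
    obtain ⟨i, γ, hγ, h⟩ := hsurj (cmp Ψ q.out) (by rw [cmp_apply, gal_xx, hΨ])
    exact ⟨i, γ, hγ, by ext z; exact h z⟩
  choose f γ hγ hf using h1
  symm
  refine Finset.prod_bij (fun q _ => f q) ?_ ?_ ?_ ?_
  · intro q _
    rw [hI]
    have h2 := DFunLike.congr_fun (hf q) (xx K Ω)
    rw [cmp_apply, cmp_apply, gal_xx, gal_xx, hΨ] at h2
    exact h2.symm
  · intro q _ q' _ hqq
    have h2 := hf q
    have h3 := hf q'
    rw [← hqq] at h3
    have h4 : q.out * (γ q)⁻¹ = q'.out * (γ q')⁻¹ := by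
      ext z
      apply Ψ.injective
      have h5 := DFunLike.congr_fun h2 ((γ q)⁻¹ z)
      have h6 := DFunLike.congr_fun h3 ((γ q')⁻¹ z)
      have h7 : (γ q) ((γ q)⁻¹ z) = z := (γ q).apply_symm_apply z
      have h8 : (γ q') ((γ q')⁻¹ z) = z := (γ q').apply_symm_apply z
      rw [cmp_apply, cmp_apply, h7] at h5
      rw [cmp_apply, cmp_apply, h8] at h6
      exact h5.trans h6.symm
    rw [← QuotientGroup.out_eq' q, ← QuotientGroup.out_eq' q', QuotientGroup.eq]
    have h9 : (q.out)⁻¹ * q'.out = (γ q)⁻¹ * (γ q') := by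
      rw [inv_mul_eq_iff_eq_mul, ← mul_assoc, h4, inv_mul_cancel_right]
    rw [h9]
    exact P.mul_mem (P.inv_mem (hγ q)) (hγ q')
  · intro i hi
    rw [hI] at hi
    obtain ⟨γ', hγ'⟩ := emb_conj Ψ (Φ i) (hΨ.trans hi.symm)
    refine ⟨(γ' : (Ω ≃ₐ[RatFunc K] Ω) ⧸ P), Finset.mem_univ _, ?_⟩
    symm
    set q : (Ω ≃ₐ[RatFunc K] Ω) ⧸ P := (γ' : (Ω ≃ₐ[RatFunc K] Ω) ⧸ P) with hq
    have h2 : q.out⁻¹ * γ' ∈ P := by
      rw [← QuotientGroup.eq, QuotientGroup.out_eq']
    have h3 := hf q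
    refine hinj i (f q) (γ q * (q.out⁻¹ * γ')) (P.mul_mem (hγ q) h2) fun z => ?_
    have h4 := DFunLike.congr_fun h3 ((q.out⁻¹ * γ') z)
    have h5 := DFunLike.congr_fun hγ' z
    rw [← h5]
    have h6 : cmp Ψ q.out ((q.out⁻¹ * γ') z) = cmp Ψ γ' z := by
      rw [← cmp_apply, cmp_cmp, mul_inv_cancel_left]
    rw [← h6, h4]
    rfl
  · intro q _
    rw [hf q]
    exact hg _ _ (hγ q)

theorem t_kum : St_kum := by
  intro K K₀ F E Ω _ _ _ _ _ _ _ _ _ _ _ _ _ _ _ _ _ _ _ _ _ _ _ _ hreg P A _ _ ψ _ hA S hS hSinj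
    T hT n Φ hΦ hinj hsurj a
  classical
  -- the realised subgroup
  let B : Subgroup A :=
    { carrier := {b | ∃ (σ : E ≃ₐ[F] E) (π : Equiv.Perm (Fin n)) (γ : Fin n → P), σ T = T ∧
        (∀ i z, σ (Φ i z) = Φ (π i) ((γ i : Ω ≃ₐ[RatFunc K] Ω) z)) ∧ ∏ i, ψ (γ i) = b}
      mul_mem' := by
        rintro b b' ⟨σ, π, γ, h1, h2, h3⟩ ⟨σ', π', γ', h1', h2', h3'⟩
        refine ⟨σ * σ', π * π', fun i => γ (π' i) * γ' i, ?_, fun i z => ?_, ?_⟩
        · rw [AlgEquiv.mul_apply, h1', h1]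
        · rw [AlgEquiv.mul_apply, h2', h2]; rfl
        · simp only [map_mul, Finset.prod_mul_distrib, h3']
          rw [Equiv.prod_comp π' (fun i => ψ (γ i)), h3]
      one_mem' := ⟨1, 1, fun _ => 1, rfl, fun i z => rfl, by simp⟩
      inv_mem' := by
        rintro b ⟨σ, π, γ, h1, h2, h3⟩
        refine ⟨σ⁻¹, π⁻¹, fun i => (γ (π⁻¹ i))⁻¹, ?_, fun i z => ?_, ?_⟩
        · exact (AlgEquiv.symm_apply_eq σ).2 h1.symm
        · refine (AlgEquiv.symm_apply_eq σ).2 ?_
          rw [h2, ← Equiv.Perm.mul_apply, mul_inv_cancel, Equiv.Perm.one_apply]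
          congr 1
          exact ((γ (π⁻¹ i) : Ω ≃ₐ[RatFunc K] Ω).apply_symm_apply z).symm
        · simp only [map_inv, Finset.prod_inv_distrib]
          rw [Equiv.prod_comp π⁻¹ (fun i => ψ (γ i)), h3] }
  by_contra hcon
  have haB : a ∉ B := hcon
  have hc0 : CharZero K₀ := charZero_of_injective_algebraMap (algebraMap K K₀).injective
  have hcF : CharZero F := charZero_of_injective_algebraMap (algebraMap K F).injective
  obtain ⟨χ₀, hχB, hχa⟩ := exists_char B a haB K₀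
  let _ : Fintype P := Fintype.ofFinite _
  let χ : P →* K₀ˣ := χ₀.comp ψ
  set e : ℕ := Nat.card A with he
  have he0 : e ≠ 0 := Nat.card_pos.ne'
  have hχe : ∀ p, χ p ^ e = 1 := by
    intro p
    change χ₀ (ψ p) ^ e = 1
    rw [← map_pow, pow_card_eq_one', map_one]
  obtain ⟨γ₀, hγ₀, hprod⟩ := hA a
  have hrootF : ∀ s : E, aeval s S = T → Transcendental F s := by
    intro s hs h
    obtain ⟨b, rfl⟩ := mem_range_of_alg s h
    apply hT
    rw [← hs, aeval_algebraMap_apply]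
    exact isAlgebraic_algebraMap _
  have hroot : ∀ s : E, aeval s S = T → Transcendental K₀ s := fun s hs =>
    (hrootF s hs).restrictScalars (algebraMap K₀ F).injective
  have hrootK : ∀ s : E, aeval s S = T → Transcendental K s := fun s hs =>
    (hrootF s hs).restrictScalars (algebraMap K F).injective
  have hdegQ : (S.map (algebraMap F E) - C T).natDegree = S.natDegree := by
    rw [natDegree_sub_C, natDegree_map]
  have hQ0 : S.map (algebraMap F E) - C T ≠ 0 := by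
    intro h
    rw [h, natDegree_zero] at hdegQ
    omega
  have hmemroot : ∀ s : E, s ∈ (S.map (algebraMap F E) - C T).roots ↔ aeval s S = T := by
    intro s
    rw [mem_roots hQ0, IsRoot.def, eval_sub, eval_C, eval_map_algebraMap, sub_eq_zero]
  obtain ⟨s₀, hs₀⟩ : ∃ s : E, aeval s S = T := by
    obtain ⟨s, hs⟩ := IsAlgClosed.exists_root (S.map (algebraMap F E) - C T) (by
      rw [degree_eq_natDegree hQ0, hdegQ]
      exact_mod_cast hS.ne')
    exact ⟨s, by rwa [IsRoot.def, eval_sub, eval_C, eval_map_algebraMap, sub_eq_zero] at hs⟩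
  obtain ⟨Φ₀, hΦ₀⟩ := emb_ext (Ω := Ω) s₀ (hrootK s₀ hs₀)
  obtain ⟨z₀, hz₀⟩ := bb_ne P χ Φ₀
  have hgal : ∀ γ : Ω ≃ₐ[RatFunc K] Ω, ∃ τ : E ≃ₐ[K₀] E, ∀ z, τ (Φ₀ z) = Φ₀ (γ z) := fun γ =>
    emb_gal hreg Φ₀ (by rw [hΦ₀]; exact hroot s₀ hs₀) γ
  have hN₀ : NN P χ Φ₀ z₀ ≠ 0 := by
    unfold NN
    refine Finset.prod_ne_zero_iff.2 fun q _ => ?_
    obtain ⟨τ, hτ⟩ := hgal q.out
    have h1 := bb_aut P χ Φ₀ (cmp Φ₀ q.out) z₀ (τ : E →+* E) (fun a => τ.commutes a) hτ
    rw [← h1]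
    exact (_root_.map_ne_zero _).2 hz₀
  obtain ⟨z, R, hNz, hR⟩ := NN_poly P χ e he0 hχe z₀ Φ₀ hN₀
  have hR0 : R ≠ 0 := by
    rintro rfl
    have := hR Φ₀
    rw [map_zero] at this
    exact pow_ne_zero e hNz this
  -- `R` is not an `e`-th power
  have hpow : ¬ ∃ R₁ : K₀[X], R = R₁ ^ e := by
    rintro ⟨R₁, hR₁⟩
    have h1 := hR Φ₀
    rw [hR₁, map_pow] at h1
    have hR₁0 : aeval (Φ₀ (xx K Ω)) R₁ ≠ 0 := by
      intro h
      rw [h, zero_pow he0] at h1
      exact pow_ne_zero e hNz h1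
    set ζ : E := NN P χ Φ₀ z / aeval (Φ₀ (xx K Ω)) R₁ with hζ
    have hζe : ζ ^ e = 1 := by
      rw [hζ, div_pow, h1, div_self (pow_ne_zero _ hR₁0)]
    obtain ⟨ζ₀, hζ₀⟩ := mem_range_of_alg (F := K₀) ζ
      ⟨X ^ e - 1, (monic_X_pow_sub_C 1 he0).ne_zero, by simp [hζe]⟩
    have h2 : NN P χ Φ₀ z = algebraMap K₀ E ζ₀ * aeval (Φ₀ (xx K Ω)) R₁ := by
      rw [hζ₀, hζ, div_mul_cancel₀ _ hR₁0]
    obtain ⟨τ, hτ⟩ := hgal γ₀
    have h3 : τ (NN P χ Φ₀ z) = NN P χ (cmp Φ₀ γ₀) z := by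
      unfold NN
      rw [map_prod]
      refine Finset.prod_congr rfl fun q _ => ?_
      exact bb_aut P χ (cmp Φ₀ q.out) (cmp (cmp Φ₀ γ₀) q.out) z (τ : E →+* E)
        (fun a => τ.commutes a) (fun z => hτ _)
    have h4 : τ (NN P χ Φ₀ z) = NN P χ Φ₀ z := by
      conv_lhs => rw [h2]
      rw [map_mul, τ.commutes, ← aeval_algHom_apply, hτ, gal_xx, ← h2]
    have h5 := NN_cen P χ Φ₀ z γ₀ hγ₀
    rw [← h3, h4] at h5
    have h6 : (∏ q : (Ω ≃ₐ[RatFunc K] Ω) ⧸ P, χ ⟨q.out⁻¹ * γ₀ * q.out, hγ₀ _⟩) = χ₀ a := by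
      rw [← hprod, map_prod]
      rfl
    rw [h6] at h5
    have h7 : algebraMap K₀ E (χ₀ a : K₀) = 1 := by
      have := mul_right_cancel₀ hNz (h5.symm.trans (one_mul _).symm)
      exact this
    apply hχa
    apply Units.ext
    apply (algebraMap K₀ E).injective
    rw [h7, Units.val_one, map_one]
  apply hpow
  refine pow_of_mult R e he0 ?_
  -- the product over all embeddings
  set β : E := ∏ i, bb P χ (Φ i) z with hβ
  have hact : ∀ σ : E ≃ₐ[F] E, σ T = T → σ β = β := by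
    intro σ hσ
    have h1 : ∀ i, ∃ j, ∃ γ ∈ P, ∀ w, σ (Φ i w) = Φ j (γ w) := by
      intro i
      refine hsurj (((σ.restrictScalars K : E ≃ₐ[K] E) : E →ₐ[K] E).comp (Φ i)) ?_
      change aeval (σ (Φ i (xx K Ω))) S = T
      have := aeval_algHom_apply (σ : E →ₐ[F] E) (Φ i (xx K Ω)) S
      rw [hΦ i] at this
      exact this.trans hσ
    choose f γ hγ hf using h1
    have hfinj : Function.Injective f := by
      intro i i' hii
      refine hinj i i' ((γ i')⁻¹ * γ i) (P.mul_mem (P.inv_mem (hγ i')) (hγ i)) fun w => ?_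
      apply σ.injective
      rw [hf i w, hf i', ← hii, AlgEquiv.mul_apply]
      congr 1
      exact ((γ i').apply_symm_apply _).symm
    let π : Equiv.Perm (Fin n) := Equiv.ofBijective f (Finite.injective_iff_bijective.1 hfinj)
    have hmem : (∏ i, ψ ⟨γ i, hγ i⟩) ∈ B := ⟨σ, π, fun i => ⟨γ i, hγ i⟩, hσ, fun i w => hf i w, rfl⟩
    have h2 : ∀ i, σ (bb P χ (Φ i) z) =
        algebraMap K₀ E (χ ⟨γ i, hγ i⟩) * bb P χ (Φ (π i)) z := by
      intro i
      rw [← bb_cmp]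
      refine bb_aut P χ (Φ i) (cmp (Φ (π i)) (γ i)) z (σ : E →+* E) (fun a => ?_) (fun w => hf i w)
      rw [IsScalarTower.algebraMap_apply K₀ F E]
      exact σ.commutes _
    rw [hβ, map_prod]
    simp only [h2, Finset.prod_mul_distrib]
    rw [Equiv.prod_comp π (fun i => bb P χ (Φ i) z), ← map_prod, ← Units.coe_prod]
    have h3 : ∏ i, χ ⟨γ i, hγ i⟩ = 1 := by
      have := hχB _ hmem
      rw [map_prod] at this
      exact this
    rw [h3, Units.val_one, map_one, one_mul]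
  have halg : IsAlgebraic (IntermediateField.adjoin F {T}) β := by
    let L := IntermediateField.adjoin F {T}
    let _ : Algebra K L := ((algebraMap F L).comp (algebraMap K F)).toAlgebra
    have hKL : IsScalarTower K L E := .of_algebraMap_eq fun x => by
      rw [IsScalarTower.algebraMap_apply K F E]; rfl
    have hTL : T ∈ L := IntermediateField.mem_adjoin_simple_self F T
    have h1 : ∀ i, IsAlgebraic L (Φ i (xx K Ω)) := by
      intro i
      refine ⟨S.map (algebraMap F L) - C (⟨T, hTL⟩ : L), ?_, ?_⟩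
      · intro h
        have h2 : (S.map (algebraMap F L) - C (⟨T, hTL⟩ : L)).natDegree = S.natDegree := by
          rw [natDegree_sub_C, natDegree_map]
        rw [h, natDegree_zero] at h2
        omega
      · rw [map_sub, aeval_map_algebraMap, hΦ i, aeval_C]
        exact sub_self _
    have h2 : ∀ x : E, IsAlgebraic L x ↔ x ∈ algebraicClosure L E := fun x =>
      mem_algebraicClosure_iff.symm
    rw [h2, hβ]
    refine prod_mem fun i _ => ?_
    unfold bb
    refine sum_mem fun p _ => mul_mem ?_ ?_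
    · rw [← h2]
      rw [IsScalarTower.algebraMap_apply K₀ F E, IsScalarTower.algebraMap_apply F L E]
      exact isAlgebraic_algebraMap _
    · rw [← h2]
      exact emb_alg (Φ i) (h1 i) _
  obtain ⟨u, v, hv0, huv⟩ := fixed_adj T β halg hact
  -- the `e`-th power of the product
  have hβe : β ^ e = ((S.map (algebraMap F E) - C T).roots.map (fun s => aeval s R)).prod := by
    have hnd := nodup_roots_sub S hS T hT
    have h1 : ((S.map (algebraMap F E) - C T).roots.map (fun s => aeval s R)).prod =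
        ∏ s ∈ (S.map (algebraMap F E) - C T).roots.toFinset, aeval s R := by
      rw [Finset.prod, Multiset.toFinset_val, hnd.dedup]
    rw [h1, hβ, ← Finset.prod_pow]
    have h2 : ∀ i ∈ (Finset.univ : Finset (Fin n)), Φ i (xx K Ω) ∈
        (S.map (algebraMap F E) - C T).roots.toFinset := by
      intro i _
      rw [Multiset.mem_toFinset, hmemroot]
      exact hΦ i
    rw [← Finset.prod_fiberwise_of_maps_to h2]
    refine Finset.prod_congr rfl fun s hs => ?_
    rw [Multiset.mem_toFinset, hmemroot] at hs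
    obtain ⟨Ψ, hΨ⟩ := emb_ext (Ω := Ω) s (hrootK s hs)
    have h3 := fiber_prod P n Φ s (Finset.univ.filter fun i => Φ i (xx K Ω) = s)
      (fun i => by simp) hinj (fun Φ' hΦ' => hsurj Φ' (by rw [hΦ']; exact hs))
      (fun Φ => bb P χ Φ z ^ e) (fun Φ p hp => by
        have := bb_cmp P χ Φ z ⟨p, hp⟩
        change bb P χ (cmp Φ p) z ^ e = _
        rw [this, mul_pow, ← map_pow, ← Units.val_pow_eq_pow_val, hχe, Units.val_one, map_one,
          one_mul]) Ψ hΨ
    rw [h3, ← hΨ, ← hR Ψ]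
    unfold NN
    rw [Finset.prod_pow]
  obtain ⟨c, hc0', hc⟩ := prod_res R hR0 S hS T
  rw [hc] at hβe
  have hfin : u ^ e = v ^ e *
      (C c * (R.roots.map (fun ξ => X - C (S.eval (algebraMap K₀ F ξ)))).prod) := by
    apply transcendental_iff_injective.1 hT
    rw [map_pow, ← huv, map_mul (aeval T) (v ^ e), map_pow, mul_pow, hβe]
    ring
  have hv : v ≠ 0 := by
    rintro rfl
    exact hv0 (map_zero _)
  exact fun ξ => mult_dvd (fun ξ => S.eval (algebraMap K₀ F ξ)) (fun ξ ξ' h => hSinj ξ ξ' h) R u v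
    hv c hc0' e hfin ξ

end Pool.Agent.K3h73
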