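import Mathlib
import Pool.Agent.K3h17.Stm3

/-!
Brick NRM (product formula by linear algebra over `N[X]`) of helper17's project.
-/

set_option autoImplicit false

namespace Pool.Agent.K3h73.Nrm

open Polynomial Matrix

section
variable {N : Type} [Field N]

/-- uniqueness of division with remainder -/
lemma div_uniq {P f a r : N[X]} (hP : P ≠ 0) (h : f = a * P + r) (hr : r.degree < P.degree) :
    f / P = a ∧ f % P = r := by
  have h1 := EuclideanDomain.div_add_mod f P
  have h2 : P * (a - f / P) = f % P - r := by
    linear_combination (-1 : N[X]) * h - h1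
  have h3 : (f % P - r).degree < P.degree :=
    lt_of_le_of_lt (degree_sub_le _ _) (max_lt (degree_mod_lt f hP) hr)
  have h4 : a - f / P = 0 := by
    by_contra hne
    rw [← h2] at h3
    exact absurd (degree_le_mul_left P hne) (not_le.mpr h3)
  have h5 : f / P = a := (sub_eq_zero.mp h4).symm
  refine ⟨h5, ?_⟩
  rw [h4, mul_zero] at h2
  exact sub_eq_zero.mp h2.symm

/-- the quotient as a linear map -/
noncomputable def quo (P : N[X]) (hP : P ≠ 0) : N[X] →ₗ[N] N[X] where
  toFun f := f / P
  map_add' f g := by
    refine (div_uniq (a := f / P + g / P) (r := f % P + g % P) hP ?_ ?_).1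
    · have h1 := EuclideanDomain.div_add_mod f P
      have h2 := EuclideanDomain.div_add_mod g P
      linear_combination (-1 : N[X]) * h1 - h2
    · exact lt_of_le_of_lt (degree_add_le _ _) (max_lt (degree_mod_lt f hP) (degree_mod_lt g hP))
  map_smul' c f := by
    refine (div_uniq (a := c • (f / P)) (r := c • (f % P)) hP ?_ ?_).1
    · have h1 := EuclideanDomain.div_add_mod f P
      simp only [smul_eq_C_mul]
      linear_combination (-C c : N[X]) * h1
    · exact lt_of_le_of_lt (degree_smul_le _ _) (degree_mod_lt f hP)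

/-- the remainder as a linear map to polynomials of degree `< d` -/
noncomputable def rmd (P : N[X]) (hP : P ≠ 0) (d : ℕ) (hd : P.degree = d) :
    N[X] →ₗ[N] degreeLT N d where
  toFun f := ⟨f % P, mem_degreeLT.mpr (hd ▸ degree_mod_lt f hP)⟩
  map_add' f g := by
    apply Subtype.ext
    exact add_mod f g P
  map_smul' c f := by
    apply Subtype.ext
    refine (div_uniq (a := c • (f / P)) (r := c • (f % P)) hP ?_ ?_).2
    · have h1 := EuclideanDomain.div_add_mod f P
      simp only [smul_eq_C_mul]
      linear_combination (-C c : N[X]) * h1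
    · exact lt_of_le_of_lt (degree_smul_le _ _) (degree_mod_lt f hP)

lemma det_one_sub_sq {A : Type} [AddCommGroup A] [Module N A] [Module.Finite N A]
    (n : Module.End N A) (hn : n * n = 0) : LinearMap.det (1 - n) = 1 := by
  have h1 : IsNilpotent n := ⟨2, by rw [pow_two, hn]⟩
  have h2 := h1.charpoly_eq_X_pow_finrank
  have h3 := LinearMap.eval_charpoly n 1
  rw [h2] at h3
  simpa using h3.symm

variable {m : ℕ}

/-- row vector times matrix -/
noncomputable def mulM (V : Matrix (Fin m) (Fin m) N[X]) : (Fin m → N[X]) →ₗ[N] (Fin m → N[X]) where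
  toFun c := fun q => ∑ p, c p * V p q
  map_add' c c' := by
    funext q
    simp [add_mul, Finset.sum_add_distrib]
  map_smul' a c := by
    funext q
    simp [Finset.smul_sum]

lemma mulM_apply (V : Matrix (Fin m) (Fin m) N[X]) (c : Fin m → N[X]) (q : Fin m) :
    mulM V c q = ∑ p, c p * V p q := rfl

lemma mulM_mul (U V : Matrix (Fin m) (Fin m) N[X]) (c : Fin m → N[X]) :
    mulM V (mulM U c) = mulM (U * V) c := by
  funext q
  simp only [mulM_apply, Matrix.mul_apply, Finset.sum_mul, Finset.mul_sum]
  rw [Finset.sum_comm]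
  refine Finset.sum_congr rfl fun p _ => Finset.sum_congr rfl fun r _ => by ring

lemma mulM_degree (V : Matrix (Fin m) (Fin m) N[X]) (c : Fin m → N[X]) (n b : ℕ)
    (hc : ∀ p, (c p).degree < (n : WithBot ℕ)) (hV : ∀ p q, (V p q).natDegree ≤ b) (q : Fin m) :
    (mulM V c q).degree < ((n + b : ℕ) : WithBot ℕ) := by
  rw [mulM_apply]
  refine lt_of_le_of_lt (degree_sum_le _ _) ?_
  rw [Finset.sup_lt_iff (WithBot.bot_lt_coe _)]
  intro p _
  by_cases h0 : c p = 0
  · rw [h0, zero_mul, degree_zero]; exact WithBot.bot_lt_coe _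
  · refine lt_of_le_of_lt (degree_mul_le _ _) ?_
    have h1 := hc p
    rw [degree_eq_natDegree h0] at h1 ⊢
    have h2 : (c p).natDegree < n := by exact_mod_cast h1
    have h3 : (V p q).degree ≤ (b : WithBot ℕ) := degree_le_of_natDegree_le (hV p q)
    calc ((c p).natDegree : WithBot ℕ) + (V p q).degree ≤ ((c p).natDegree : WithBot ℕ) + b := by
          gcongr
      _ < ((n + b : ℕ) : WithBot ℕ) := by exact_mod_cast (by omega)

/-- twisted evaluation -/
noncomputable def evx {k : ℕ} (x : Fin k → N) (e : Fin k → Fin m → N) :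
    (Fin m → N[X]) →ₗ[N] (Fin k → N) where
  toFun c := fun i => ∑ p, (c p).eval (x i) * e i p
  map_add' c c' := by
    funext i
    simp [add_mul, Finset.sum_add_distrib]
  map_smul' a c := by
    funext i
    simp [Finset.mul_sum, mul_assoc]

lemma evx_apply {k : ℕ} (x : Fin k → N) (e : Fin k → Fin m → N) (c : Fin m → N[X]) (i : Fin k) :
    evx x e c i = ∑ p, (c p).eval (x i) * e i p := rfl

lemma evx_mulM {k : ℕ} (x : Fin k → N) (e : Fin k → Fin m → N)
    (V : Matrix (Fin m) (Fin m) N[X]) (v : Fin k → N)
    (hv : ∀ i p, v i * e i p = ∑ q, (V p q).eval (x i) * e i q)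
    (c : Fin m → N[X]) (i : Fin k) : evx x e (mulM V c) i = v i * evx x e c i := by
  simp only [evx_apply, mulM_apply, eval_finsetSum, eval_mul]
  rw [Finset.mul_sum]
  calc ∑ q, (∑ p, (c p).eval (x i) * (V p q).eval (x i)) * e i q
      = ∑ q, ∑ p, (c p).eval (x i) * ((V p q).eval (x i) * e i q) := by
        refine Finset.sum_congr rfl fun q _ => ?_
        rw [Finset.sum_mul]
        refine Finset.sum_congr rfl fun p _ => by ring
    _ = ∑ p, ∑ q, (c p).eval (x i) * ((V p q).eval (x i) * e i q) := Finset.sum_comm
    _ = ∑ p, v i * ((c p).eval (x i) * e i p) := by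
        refine Finset.sum_congr rfl fun p _ => ?_
        rw [← Finset.mul_sum, ← hv i p]
        ring

/-- the space of vectors of polynomials of degree `< d`, inside all vectors -/
noncomputable def inc (m d : ℕ) : (Fin m → degreeLT N d) →ₗ[N] (Fin m → N[X]) where
  toFun c := fun p => (c p : N[X])
  map_add' _ _ := rfl
  map_smul' _ _ := rfl

lemma inc_apply (d : ℕ) (c : Fin m → degreeLT N d) (p : Fin m) :
    inc m d c p = (c p : N[X]) := rfl

lemma inc_deg (d : ℕ) (c : Fin m → degreeLT N d) (p : Fin m) :
    (inc m d c p).degree < (d : WithBot ℕ) := mem_degreeLT.mp (c p).2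

/-- componentwise quotient -/
noncomputable def quoM (P : N[X]) (hP : P ≠ 0) : (Fin m → N[X]) →ₗ[N] (Fin m → N[X]) :=
  LinearMap.pi fun p => (quo P hP).comp (LinearMap.proj p)

lemma quoM_apply (P : N[X]) (hP : P ≠ 0) (c : Fin m → N[X]) (p : Fin m) :
    quoM P hP c p = c p / P := rfl

/-- componentwise remainder -/
noncomputable def rmdM (P : N[X]) (hP : P ≠ 0) (d : ℕ) (hd : P.degree = d) :
    (Fin m → N[X]) →ₗ[N] (Fin m → degreeLT N d) :=
  LinearMap.pi fun p => (rmd P hP d hd).comp (LinearMap.proj p)

lemma inc_rmdM (P : N[X]) (hP : P ≠ 0) (d : ℕ) (hd : P.degree = d) (c : Fin m → N[X])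
    (p : Fin m) : inc m d (rmdM P hP d hd c) p = c p % P := rfl

lemma inc_inj (d : ℕ) {c c' : Fin m → degreeLT N d} (h : inc m d c = inc m d c') : c = c' := by
  funext p
  exact Subtype.ext (congrFun h p)

lemma rmdM_of_deg (P : N[X]) (hP : P ≠ 0) (d : ℕ) (hd : P.degree = d) (c : Fin m → N[X])
    (hc : ∀ p, (c p).degree < (d : WithBot ℕ)) : inc m d (rmdM P hP d hd c) = c := by
  funext p
  rw [inc_rmdM, (mod_eq_self_iff hP)]
  rw [hd]; exact hc p

lemma finrank_A (d : ℕ) : Module.finrank N (Fin m → degreeLT N d) = m * d := by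
  rw [Module.finrank_pi_fintype]
  have : Module.finrank N (degreeLT N d) = d := by
    rw [(degreeLTEquiv N d).finrank_eq, Module.finrank_fin_fun]
  simp [this]

instance (d : ℕ) : Module.Finite N (degreeLT N d) :=
  Module.Finite.equiv (degreeLTEquiv N d).symm

end

section
variable {N : Type} [Field N] {m : ℕ}

/-- evaluation at the roots of `P` -/
noncomputable def evs (d : ℕ) (s : Fin d → N) :
    (Fin m → degreeLT N d) →ₗ[N] (Fin m × Fin d → N) where
  toFun c := fun pj => (c pj.1 : N[X]).eval (s pj.2)
  map_add' c c' := by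
    funext pj
    simp
  map_smul' a c := by
    funext pj
    simp

lemma evs_apply (d : ℕ) (s : Fin d → N) (c : Fin m → degreeLT N d) (pj : Fin m × Fin d) :
    evs d s c pj = (c pj.1 : N[X]).eval (s pj.2) := rfl

lemma evs_inj (d : ℕ) (s : Fin d → N) (hs : Function.Injective s) :
    Function.Injective (evs (m := m) d s) := by
  rw [injective_iff_map_eq_zero]
  intro c hc
  funext p
  apply Subtype.ext
  rw [Pi.zero_apply, Submodule.coe_zero]
  refine eq_zero_of_degree_lt_of_eval_index_eq_zero (Finset.univ : Finset (Fin d))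
    (v := s) (hs.injOn) ?_ ?_
  · rw [Finset.card_univ, Fintype.card_fin]
    exact mem_degreeLT.mp (c p).2
  · intro j _
    exact congrFun hc (p, j)

end

theorem t_nrm : Pool.Agent.K3h17.St_nrm := by
  intro N _ m d b b' hd hb hb' S T V U hS hV hU s hs hsT x hx e he hxe v hv
  -- the polynomial `P = S - T`
  set P : N[X] := S - C T with hPdef
  have hPnat : P.natDegree = d := by rw [hPdef, natDegree_sub_C, hS]
  have hP0 : P ≠ 0 := by
    intro h
    rw [h, natDegree_zero] at hPnat
    omega
  have hPd : P.degree = (d : WithBot ℕ) := by rw [degree_eq_natDegree hP0, hPnat]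
  have hPs : ∀ j, P.eval (s j) = 0 := by
    intro j
    rw [hPdef, eval_sub, eval_C, hsT j, sub_self]
  -- the basic identity `ev (a P + a U V) = 0`
  have hUV : ∀ (a : Fin m → N[X]) (i : Fin (m * d)),
      evx x e (fun p => a p * P) i + evx x e (mulM (U * V) a) i = 0 := by
    intro a i
    rw [evx_mulM x e (U * V) (fun i => T - S.eval (x i)) (fun i p => hxe i p) a i]
    simp only [evx_apply]
    rw [Finset.mul_sum, ← Finset.sum_add_distrib]
    refine Finset.sum_eq_zero fun p _ => ?_
    rw [eval_mul, hPdef, eval_sub, eval_C]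
    ring
  -- the division step
  have hdiv : ∀ c : Fin m → N[X], c = (fun p => quoM P hP0 c p * P) +
      inc m d (rmdM P hP0 d hPd c) := by
    intro c
    funext p
    rw [Pi.add_apply, inc_rmdM, quoM_apply]
    have := EuclideanDomain.div_add_mod (c p) P
    linear_combination (-1 : N[X]) * this
  -- surjectivity of the twisted evaluation
  have hred : ∀ n : ℕ, d ≤ n → ∀ c : Fin m → N[X], (∀ p, (c p).degree < (n : WithBot ℕ)) →
      ∃ r : Fin m → degreeLT N d, evx x e (inc m d r) = evx x e c := by
    intro n hn
    induction n, hn using Nat.le_induction with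
    | base =>
      intro c hc
      exact ⟨rmdM P hP0 d hPd c, by rw [rmdM_of_deg P hP0 d hPd c hc]⟩
    | succ n hn ih =>
      intro c hc
      have ha : ∀ p, (quoM P hP0 c p).degree < ((n + 1 - d : ℕ) : WithBot ℕ) := by
        intro p
        rw [quoM_apply]
        by_cases hcp : P.degree ≤ (c p).degree
        · have h1 := degree_add_div hP0 hcp
          have h0 : c p / P ≠ 0 := by
            rw [Ne, Polynomial.div_eq_zero_iff hP0]
            exact not_lt.mpr hcp
          have hc0 : c p ≠ 0 := by
            intro h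
            rw [h, degree_zero, hPd] at hcp
            exact absurd hcp (not_le.mpr (WithBot.bot_lt_coe _))
          have h2 := hc p
          rw [hPd, degree_eq_natDegree h0, degree_eq_natDegree hc0] at h1
          rw [degree_eq_natDegree hc0] at h2
          rw [degree_eq_natDegree h0]
          have h1' : d + (c p / P).natDegree = (c p).natDegree := by exact_mod_cast h1
          have h2' : (c p).natDegree < n + 1 := by exact_mod_cast h2
          exact_mod_cast (by omega : (c p / P).natDegree < n + 1 - d)
        · rw [(Polynomial.div_eq_zero_iff hP0).mpr (not_le.mp hcp), degree_zero]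
          exact WithBot.bot_lt_coe _
      have hUVd : ∀ p, (mulM V (mulM U (quoM P hP0 c)) p).degree <
          ((n + 1 - d + b' + b : ℕ) : WithBot ℕ) :=
        mulM_degree V _ _ b (mulM_degree U _ _ b' ha hU) hV
      obtain ⟨r, hr⟩ := ih (inc m d (rmdM P hP0 d hPd c) - mulM (U * V) (quoM P hP0 c)) (by
        intro p
        rw [Pi.sub_apply]
        refine lt_of_le_of_lt (degree_sub_le _ _) (max_lt ?_ ?_)
        · exact lt_of_lt_of_le (inc_deg d _ p) (by exact_mod_cast hn)
        · rw [← mulM_mul]
          exact lt_of_lt_of_le (hUVd p) (by exact_mod_cast (by omega)))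
      refine ⟨r, ?_⟩
      rw [hr]
      conv_rhs => rw [hdiv c]
      funext i
      have := hUV (quoM P hP0 c) i
      rw [map_sub, map_add, Pi.sub_apply, Pi.add_apply]
      linear_combination (-1 : N) * this
  have hsurj : Function.Surjective ((evx x e).comp (inc (N := N) m d)) := by
    intro y
    -- Lagrange interpolation
    choose p0 hp0 using fun i => Function.ne_iff.mp (he i)
    let c : Fin m → N[X] := fun p =>
      Lagrange.interpolate Finset.univ x (fun i => if p = p0 i then y i / e i (p0 i) else 0)
    have hc : ∀ p i, (c p).eval (x i) = if p = p0 i then y i / e i (p0 i) else 0 := by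
      intro p i
      exact Lagrange.eval_interpolate_at_node _ (hx.injOn) (Finset.mem_univ i)
    obtain ⟨n, hn⟩ : ∃ n : ℕ, d ≤ n ∧ ∀ p, (c p).degree < (n : WithBot ℕ) := by
      refine ⟨d + (Finset.univ.sup fun p => (c p).natDegree) + 1, by omega, fun p => ?_⟩
      refine lt_of_le_of_lt degree_le_natDegree ?_
      have := Finset.le_sup (f := fun p => (c p).natDegree) (Finset.mem_univ p)
      exact_mod_cast (by omega : (c p).natDegree < d + (Finset.univ.sup fun p => (c p).natDegree) + 1)
    obtain ⟨r, hr⟩ := hred n hn.1 c hn.2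
    refine ⟨r, ?_⟩
    rw [LinearMap.comp_apply, hr]
    funext i
    rw [evx_apply]
    rw [Finset.sum_eq_single (p0 i)]
    · rw [hc, if_pos rfl, div_mul_cancel₀]
      exact hp0 i
    · intro p _ hp
      rw [hc, if_neg hp, zero_mul]
    · intro h
      exact absurd (Finset.mem_univ _) h
  have hdim : Module.finrank N (Fin m → degreeLT N d) = Module.finrank N (Fin (m * d) → N) := by
    rw [finrank_A, Module.finrank_fin_fun]
  have hinj := (LinearMap.injective_iff_surjective_of_finrank_eq_finrank hdim).mpr hsurj
  let E : (Fin m → degreeLT N d) ≃ₗ[N] (Fin (m * d) → N) :=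
    LinearEquiv.ofBijective _ ⟨hinj, hsurj⟩
  have hE : ∀ c, E c = evx x e (inc m d c) := fun c => rfl
  -- the operators
  let VS : Module.End N (Fin m → degreeLT N d) :=
    (rmdM P hP0 d hPd).comp ((mulM V).comp (inc m d))
  let nn : Module.End N (Fin m → degreeLT N d) :=
    (rmdM P hP0 d hPd).comp ((mulM U).comp ((quoM P hP0).comp ((mulM V).comp (inc m d))))
  have hquo : ∀ c : Fin m → degreeLT N d, ∀ p,
      (quoM P hP0 (mulM V (inc m d c)) p).degree < (b : WithBot ℕ) := by
    intro c p
    have h2 := mulM_degree V (inc m d c) d b (inc_deg d c) hV p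
    set f := mulM V (inc m d c) p with hf
    rw [quoM_apply, ← hf]
    by_cases hcp : P.degree ≤ f.degree
    · have h1 := degree_add_div hP0 hcp
      have h0 : f / P ≠ 0 := by
        rw [Ne, Polynomial.div_eq_zero_iff hP0]
        exact not_lt.mpr hcp
      have hc0 : f ≠ 0 := by
        intro h
        rw [h, degree_zero, hPd] at hcp
        exact absurd hcp (not_le.mpr (WithBot.bot_lt_coe _))
      rw [hPd, degree_eq_natDegree h0, degree_eq_natDegree hc0] at h1
      rw [degree_eq_natDegree hc0] at h2
      rw [degree_eq_natDegree h0]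
      have h1' : d + (f / P).natDegree = f.natDegree := by exact_mod_cast h1
      have h2' : f.natDegree < d + b := by exact_mod_cast h2
      exact_mod_cast (by omega : (f / P).natDegree < b)
    · rw [(Polynomial.div_eq_zero_iff hP0).mpr (not_le.mp hcp), degree_zero]
      exact WithBot.bot_lt_coe _
  have hnn : ∀ c : Fin m → degreeLT N d,
      inc m d (nn c) = mulM U (quoM P hP0 (mulM V (inc m d c))) := by
    intro c
    refine rmdM_of_deg P hP0 d hPd _ fun p => ?_
    have := mulM_degree U _ b b' (hquo c) hU p
    exact lt_of_lt_of_le this (by exact_mod_cast hb'.le)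
  -- if b = 0 the quotient is zero; in general `n c` has small degree
  have hnV : ∀ c : Fin m → degreeLT N d, ∀ p,
      (mulM V (inc m d (nn c)) p).degree < (d : WithBot ℕ) := by
    intro c p
    rw [hnn]
    have := mulM_degree V _ (b + b') b (mulM_degree U _ b b' (hquo c) hU) hV p
    exact lt_of_lt_of_le this (by exact_mod_cast (by omega))
  have hsq : nn * nn = 0 := by
    apply LinearMap.ext
    intro c
    apply inc_inj
    rw [Module.End.mul_apply, hnn]
    have h0 : quoM P hP0 (mulM V (inc m d (nn c))) = 0 := by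
      funext p
      rw [quoM_apply, Pi.zero_apply, Polynomial.div_eq_zero_iff hP0, hPd]
      exact hnV c p
    rw [h0, map_zero, LinearMap.zero_apply, map_zero]
  -- the key intertwining
  have hkey : ∀ c : Fin m → degreeLT N d, E ((VS * (1 - nn)) c) = fun i => v i * E c i := by
    intro c
    have h1 : inc m d ((VS * (1 - nn)) c) =
        mulM V (inc m d c) - ((fun p => quoM P hP0 (mulM V (inc m d c)) p * P) +
          mulM (U * V) (quoM P hP0 (mulM V (inc m d c)))) := by
      have h2 : inc m d (VS c) = mulM V (inc m d c) -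
          (fun p => quoM P hP0 (mulM V (inc m d c)) p * P) := by
        have := hdiv (mulM V (inc m d c))
        exact eq_sub_of_add_eq' this.symm
      have h3 : inc m d (VS (nn c)) = mulM V (inc m d (nn c)) :=
        rmdM_of_deg P hP0 d hPd _ (hnV c)
      rw [Module.End.mul_apply, LinearMap.sub_apply, Module.End.one_apply, map_sub, map_sub, h2, h3,
        hnn, mulM_mul, sub_sub]
    rw [hE, h1]
    funext i
    rw [map_sub, map_add, Pi.sub_apply, Pi.add_apply, hUV, sub_zero, evx_mulM x e V v hv, hE]
  have hdetF : LinearMap.det (VS * (1 - nn)) = ∏ i, v i := by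
    rw [← LinearMap.det_conj (VS * (1 - nn)) E]
    have : (E : _ →ₗ[N] _) ∘ₗ (VS * (1 - nn)) ∘ₗ (E.symm : _ →ₗ[N] _) =
        Matrix.toLin' (Matrix.diagonal v) := by
      apply LinearMap.ext
      intro y
      rw [LinearMap.comp_apply, LinearMap.comp_apply]
      show E ((VS * (1 - nn)) (E.symm y)) = _
      rw [hkey]
      funext i
      rw [LinearEquiv.apply_symm_apply, Matrix.toLin'_apply, Matrix.mulVec_diagonal]
    rw [this, LinearMap.det_toLin', Matrix.det_diagonal]
  have hdetS : LinearMap.det VS = ∏ j, (V.map (eval (s j))).det := by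
    have hdim2 : Module.finrank N (Fin m → degreeLT N d) =
        Module.finrank N (Fin m × Fin d → N) := by
      rw [finrank_A, Module.finrank_fintype_fun_eq_card, Fintype.card_prod, Fintype.card_fin,
        Fintype.card_fin]
    have hinj2 := evs_inj (m := m) d s hs
    have hsurj2 := (LinearMap.injective_iff_surjective_of_finrank_eq_finrank hdim2).mp hinj2
    let F : (Fin m → degreeLT N d) ≃ₗ[N] (Fin m × Fin d → N) :=
      LinearEquiv.ofBijective _ ⟨hinj2, hsurj2⟩
    have hF : ∀ c pj, F c pj = (inc m d c pj.1).eval (s pj.2) := fun c pj => rfl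
    have hFV : ∀ c q j, F (VS c) (q, j) = ∑ p, (V p q).eval (s j) * F c (p, j) := by
      intro c q j
      rw [hF]
      have h1 : inc m d (VS c) q = mulM V (inc m d c) q % P := rfl
      have h2 := EuclideanDomain.div_add_mod (mulM V (inc m d c) q) P
      have h3 : (mulM V (inc m d c) q % P).eval (s j) = (mulM V (inc m d c) q).eval (s j) := by
        conv_rhs => rw [← h2]
        rw [eval_add, eval_mul, hPs j, zero_mul, zero_add]
      rw [h1, h3, mulM_apply, eval_finsetSum]
      refine Finset.sum_congr rfl fun p _ => ?_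
      rw [eval_mul, hF, mul_comm]
    rw [← LinearMap.det_conj VS F]
    have : (F : _ →ₗ[N] _) ∘ₗ VS ∘ₗ (F.symm : _ →ₗ[N] _) =
        Matrix.toLin' (Matrix.blockDiagonal fun j => (V.map (eval (s j)))ᵀ) := by
      apply LinearMap.ext
      intro y
      rw [LinearMap.comp_apply, LinearMap.comp_apply]
      show F (VS (F.symm y)) = _
      funext qj
      obtain ⟨q, j⟩ := qj
      rw [hFV, LinearEquiv.apply_symm_apply, Matrix.toLin'_apply, Matrix.mulVec, dotProduct,
        Fintype.sum_prod_type]
      refine Finset.sum_congr rfl fun p _ => ?_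
      rw [Finset.sum_eq_single j]
      · rw [Matrix.blockDiagonal_apply, if_pos rfl, Matrix.transpose_apply, Matrix.map_apply]
      · intro j' _ hj'
        rw [Matrix.blockDiagonal_apply, if_neg (Ne.symm hj'), zero_mul]
      · intro h
        exact absurd (Finset.mem_univ _) h
    rw [this, LinearMap.det_toLin', Matrix.det_blockDiagonal]
    exact Finset.prod_congr rfl fun j _ => Matrix.det_transpose _
  rw [← hdetF, LinearMap.det.map_mul, det_one_sub_sq nn hsq, mul_one, hdetS]

end Pool.Agent.K3h73.Nrm
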