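import Pool.Agent.K3h17.Stm
import Pool.Agent.Y241.WR.Ext

/-!
# Brick K (St_kum), part A: embeddings and polynomials
-/

set_option autoImplicit false

namespace Pool.Agent.K3h73

open Polynomial Pool.Agent.K3h17 Pool.Agent.Y241.WR

/-! ### Polynomials -/

/-- A polynomial over an algebraically closed field all of whose root multiplicities are divisible
by `e` is an `e`-th power. -/
theorem pow_of_mult {k : Type} [Field k] [IsAlgClosed k] (R : k[X]) (e : ℕ)
    (he : e ≠ 0) (h : ∀ ξ, e ∣ R.rootMultiplicity ξ) : ∃ R₁ : k[X], R = R₁ ^ e := by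
  classical
  obtain ⟨c, hc⟩ := IsAlgClosed.exists_pow_nat_eq R.leadingCoeff (Nat.pos_of_ne_zero he)
  have hsp : R.Splits := IsAlgClosed.splits R
  refine ⟨C c * ∏ ξ ∈ R.roots.toFinset, (X - C ξ) ^ (R.rootMultiplicity ξ / e), ?_⟩
  have h1 : R = C R.leadingCoeff * (R.roots.map (fun a => X - C a)).prod :=
    hsp.eq_prod_roots
  have h2 : (R.roots.map (fun a => X - C a)).prod =
      ∏ ξ ∈ R.roots.toFinset, (X - C ξ) ^ (R.rootMultiplicity ξ) := by
    rw [Finset.prod_multiset_map_count]
    refine Finset.prod_congr rfl fun ξ _ => ?_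
    rw [count_roots]
  rw [mul_pow, ← C_pow, hc, ← Finset.prod_pow]
  conv_lhs => rw [h1, h2]
  congr 1
  refine Finset.prod_congr rfl fun ξ _ => ?_
  rw [← pow_mul, Nat.div_mul_cancel (h ξ)]

/-- Comparison of the multiplicities. -/
theorem mult_dvd {k F : Type} [Field k] [Field F] (f : k → F) (hf : Function.Injective f)
    (R : k[X]) (u v : F[X]) (hv : v ≠ 0) (c : F) (hc : c ≠ 0) (e : ℕ)
    (h : u ^ e = v ^ e * (C c * (R.roots.map (fun ξ => X - C (f ξ))).prod)) (ξ : k) :
    e ∣ R.rootMultiplicity ξ := by
  classical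
  have hP : (R.roots.map (fun ξ => X - C (f ξ))).prod ≠ 0 := by
    rw [Ne, Multiset.prod_eq_zero_iff, Multiset.mem_map]
    rintro ⟨a, -, ha⟩
    exact X_sub_C_ne_zero _ ha
  have h1 : (R.roots.map (fun ξ => X - C (f ξ))).prod.rootMultiplicity (f ξ) =
      R.rootMultiplicity ξ := by
    have h2 : (R.roots.map (fun ξ => X - C (f ξ))).prod.roots = R.roots.map f := by
      have : R.roots.map (fun ξ => X - C (f ξ)) = (R.roots.map f).map (fun a => X - C a) := by
        rw [Multiset.map_map]; rfl
      rw [this, roots_multiset_prod_X_sub_C]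
    rw [← count_roots, h2, Multiset.count_map_eq_count' f _ hf, count_roots]
  have h3 := congrArg (fun p => rootMultiplicity (f ξ) p) h
  have h5 : C c * (R.roots.map (fun ξ => X - C (f ξ))).prod ≠ 0 :=
    mul_ne_zero (by simpa using hc) hP
  have h4 : v ^ e * (C c * (R.roots.map (fun ξ => X - C (f ξ))).prod) ≠ 0 :=
    mul_ne_zero (pow_ne_zero _ hv) h5
  rw [rootMultiplicity_mul h4, rootMultiplicity_mul h5, rootMultiplicity_C, zero_add, h1,
    ← count_roots, ← count_roots, roots_pow, roots_pow, Multiset.count_nsmul,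
    Multiset.count_nsmul, count_roots, count_roots] at h3
  have : e ∣ e * rootMultiplicity (f ξ) v + rootMultiplicity ξ R := by
    rw [← h3]; exact dvd_mul_right _ _
  exact (Nat.dvd_add_right (dvd_mul_right _ _)).1 this

/-- The product of `R(s)` over the roots `s` of `S - T`. -/
theorem prod_res {k F E : Type} [Field k] [IsAlgClosed k] [Field F] [Field E] [IsAlgClosed E]
    [Algebra k F] [Algebra F E] [Algebra k E] [IsScalarTower k F E]
    (R : k[X]) (hR : R ≠ 0) (S : F[X]) (hS : 0 < S.natDegree) (T : E) :
    ∃ c : F, c ≠ 0 ∧ ((S.map (algebraMap F E) - C T).roots.map (fun s => aeval s R)).prod =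
      aeval T (C c * (R.roots.map (fun ξ => X - C (S.eval (algebraMap k F ξ)))).prod) := by
  set Q : E[X] := S.map (algebraMap F E) - C T with hQ
  set d := S.natDegree with hd
  have hS0 : S ≠ 0 := fun h => by rw [h, natDegree_zero] at hd; omega
  have hdeg : Q.natDegree = d := by
    rw [hQ, natDegree_sub_C, natDegree_map]
  have hlc : Q.leadingCoeff = algebraMap F E S.leadingCoeff := by
    rw [leadingCoeff, hdeg, hQ, coeff_sub, coeff_C, if_neg (by omega), sub_zero, coeff_map]
    rfl
  have hQ0 : Q ≠ 0 := by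
    intro h; rw [h, natDegree_zero] at hdeg; omega
  have hsp : Q.Splits := IsAlgClosed.splits Q
  have hcard : Multiset.card Q.roots = d := by
    rw [← hdeg]; exact splits_iff_card_roots.1 hsp
  have hRs : R.Splits := IsAlgClosed.splits R
  have hfac : ∀ s : E, aeval s R = algebraMap k E R.leadingCoeff *
      (R.roots.map (fun ξ => s - algebraMap k E ξ)).prod := by
    intro s
    conv_lhs => rw [hRs.eq_prod_roots]
    rw [map_mul, aeval_C, map_multiset_prod, Multiset.map_map]
    congr 2
    refine Multiset.map_congr rfl fun ξ _ => ?_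
    simp
  have hQe : ∀ ξ : E, Q.eval ξ = Q.leadingCoeff * (Q.roots.map (fun s => ξ - s)).prod := by
    intro ξ
    conv_lhs => rw [hsp.eq_prod_roots]
    rw [eval_mul, eval_C, eval_multiset_prod, Multiset.map_map]
    congr 2
    refine Multiset.map_congr rfl fun s _ => ?_
    simp
  refine ⟨(algebraMap k F R.leadingCoeff) ^ d *
    (((-1) ^ (d + 1)) * (S.leadingCoeff)⁻¹) ^ (Multiset.card R.roots), ?_, ?_⟩
  · refine mul_ne_zero (pow_ne_zero _ ?_) (pow_ne_zero _ (mul_ne_zero (by simp) ?_))
    · rw [Ne, map_eq_zero]; simpa using hR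
    · rw [Ne, inv_eq_zero, leadingCoeff_eq_zero]; exact hS0
  · simp_rw [hfac]
    rw [Multiset.prod_map_mul, Multiset.map_const', Multiset.prod_replicate, hcard,
      Multiset.prod_map_prod_map]
    have h1 : ∀ ξ : k, (Q.roots.map (fun s => s - algebraMap k E ξ)).prod =
        algebraMap F E ((-1) ^ (d + 1) * (S.leadingCoeff)⁻¹) *
          aeval T (X - C (S.eval (algebraMap k F ξ))) := by
      intro ξ
      have h2 : (Q.roots.map (fun s => s - algebraMap k E ξ)).prod =
          (-1) ^ d * (Q.roots.map (fun s => algebraMap k E ξ - s)).prod := by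
        have h3 : (Q.roots.map (fun s => s - algebraMap k E ξ)) =
            Q.roots.map (fun s => (-1) * (algebraMap k E ξ - s)) := by
          refine Multiset.map_congr rfl fun s _ => ?_
          ring
        rw [h3, Multiset.prod_map_mul, Multiset.map_const', Multiset.prod_replicate, hcard]
      have h4 := hQe (algebraMap k E ξ)
      have h5 : Q.eval (algebraMap k E ξ) =
          algebraMap F E (S.eval (algebraMap k F ξ)) - T := by
        rw [hQ, eval_sub, eval_C, IsScalarTower.algebraMap_apply k F E, eval_map_algebraMap,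
          aeval_algebraMap_apply, coe_aeval_eq_eval]
      have hlc0 : algebraMap F E S.leadingCoeff ≠ 0 := by
        rw [Ne, map_eq_zero, leadingCoeff_eq_zero]; exact hS0
      rw [h2]
      rw [h5, hlc] at h4
      have h6 : (Q.roots.map (fun s => algebraMap k E ξ - s)).prod =
          (algebraMap F E S.leadingCoeff)⁻¹ * (algebraMap F E (S.eval (algebraMap k F ξ)) - T) := by
        rw [h4, inv_mul_cancel_left₀ hlc0]
      rw [h6]
      simp only [map_mul, map_pow, map_neg, map_one, map_inv₀, map_sub, aeval_X, aeval_C]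
      ring
    simp_rw [h1]
    have e1 : aeval T (C ((algebraMap k F) R.leadingCoeff ^ d *
        ((-1) ^ (d + 1) * S.leadingCoeff⁻¹) ^ (Multiset.card R.roots)) *
          (R.roots.map (fun ξ => X - C (S.eval (algebraMap k F ξ)))).prod) =
        algebraMap F E ((algebraMap k F) R.leadingCoeff ^ d *
        ((-1) ^ (d + 1) * S.leadingCoeff⁻¹) ^ (Multiset.card R.roots)) *
          (R.roots.map (fun ξ => aeval T (X - C (S.eval (algebraMap k F ξ))))).prod := by
      rw [map_mul, aeval_C, map_multiset_prod, Multiset.map_map]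
      rfl
    rw [e1, Multiset.prod_map_mul, Multiset.map_const', Multiset.prod_replicate,
      map_mul (algebraMap F E) (_ ^ d), map_pow (algebraMap F E) _ d,
      ← IsScalarTower.algebraMap_apply k F E,
      map_pow (algebraMap F E) _ (Multiset.card R.roots), mul_assoc]

end Pool.Agent.K3h73
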