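import Pool.Agent.K3h73.KumA

/-!
# Brick K (St_kum), part B: embeddings
-/

set_option autoImplicit false

namespace Pool.Agent.K3h73

open Polynomial Pool.Agent.K3h17 Pool.Agent.Y241.WR

section

variable {K Ω E : Type} [Field K] [Field Ω] [Algebra (RatFunc K) Ω] [Algebra K Ω]
  [IsScalarTower K (RatFunc K) Ω] [Field E] [Algebra K E]

/-- Composition of an embedding with an automorphism. -/
noncomputable def cmp (Φ : Ω →ₐ[K] E) (γ : Ω ≃ₐ[RatFunc K] Ω) : Ω →ₐ[K] E :=
  Φ.comp ((γ : Ω →ₐ[RatFunc K] Ω).restrictScalars K)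

@[simp] theorem cmp_apply (Φ : Ω →ₐ[K] E) (γ : Ω ≃ₐ[RatFunc K] Ω) (z : Ω) :
    cmp Φ γ z = Φ (γ z) := rfl

theorem cmp_cmp (Φ : Ω →ₐ[K] E) (γ γ' : Ω ≃ₐ[RatFunc K] Ω) :
    cmp (cmp Φ γ) γ' = cmp Φ (γ * γ') := rfl

theorem cmp_one (Φ : Ω →ₐ[K] E) : cmp Φ 1 = Φ := rfl

omit [Algebra K Ω] [IsScalarTower K (RatFunc K) Ω] in
theorem gal_xx (γ : Ω ≃ₐ[RatFunc K] Ω) : γ (xx K Ω) = xx K Ω := γ.commutes _

theorem algebraMap_poly (p : K[X]) :
    algebraMap (RatFunc K) Ω (algebraMap K[X] (RatFunc K) p) = aeval (xx K Ω) p := by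
  have hcomp : (algebraMap (RatFunc K) Ω).comp (algebraMap K[X] (RatFunc K)) =
      (aeval (xx K Ω) : K[X] →ₐ[K] Ω).toRingHom := by
    apply Polynomial.ringHom_ext
    · intro a
      change algebraMap (RatFunc K) Ω (algebraMap K[X] (RatFunc K) (C a)) = aeval _ (C a)
      rw [aeval_C, IsScalarTower.algebraMap_apply K (RatFunc K) Ω]
      rfl
    · change algebraMap (RatFunc K) Ω (algebraMap K[X] (RatFunc K) X) = aeval _ X
      rw [aeval_X, RatFunc.algebraMap_X]
      rfl
  exact RingHom.congr_fun hcomp p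

theorem emb_poly (Φ : Ω →ₐ[K] E) (p : K[X]) :
    Φ (algebraMap (RatFunc K) Ω (algebraMap K[X] (RatFunc K) p)) = aeval (Φ (xx K Ω)) p := by
  rw [algebraMap_poly, aeval_algHom_apply]

/-- Two embeddings with the same value at `x` are conjugate. -/
theorem emb_conj [FiniteDimensional (RatFunc K) Ω] [IsGalois (RatFunc K) Ω] [IsAlgClosed E]
    (Φ Φ' : Ω →ₐ[K] E) (h : Φ (xx K Ω) = Φ' (xx K Ω)) :
    ∃ γ : Ω ≃ₐ[RatFunc K] Ω, cmp Φ γ = Φ' := by
  let _ : Algebra (RatFunc K) E := (Φ.toRingHom.comp (algebraMap (RatFunc K) Ω)).toAlgebra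
  have hcomp : Φ.toRingHom.comp (algebraMap (RatFunc K) Ω) =
      Φ'.toRingHom.comp (algebraMap (RatFunc K) Ω) := by
    apply IsFractionRing.injective_comp_algebraMap (A := K[X])
    apply Polynomial.ringHom_ext
    · intro a
      change Φ (algebraMap (RatFunc K) Ω (algebraMap K[X] (RatFunc K) (C a))) =
        Φ' (algebraMap (RatFunc K) Ω (algebraMap K[X] (RatFunc K) (C a)))
      rw [emb_poly, emb_poly, aeval_C, aeval_C]
    · change Φ (algebraMap (RatFunc K) Ω (algebraMap K[X] (RatFunc K) X)) =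
        Φ' (algebraMap (RatFunc K) Ω (algebraMap K[X] (RatFunc K) X))
      rw [emb_poly, emb_poly, aeval_X, aeval_X, h]
  let α : Ω →ₐ[RatFunc K] E := { Φ.toRingHom with commutes' := fun r => rfl }
  let β : Ω →ₐ[RatFunc K] E :=
    { Φ'.toRingHom with commutes' := fun r => (RingHom.congr_fun hcomp r).symm }
  obtain ⟨τ, hτ⟩ := surj (N := E) α β
  let _ : Algebra Ω E := Φ.toRingHom.toAlgebra
  have t1 : IsScalarTower (RatFunc K) Ω E := .of_algebraMap_eq fun _ => rfl
  refine ⟨τ.restrictNormal Ω, ?_⟩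
  ext z
  have h1 := AlgEquiv.restrictNormal_commutes τ Ω z
  exact h1.trans (hτ z)

/-- Existence of an embedding with a given transcendental value at `x`. -/
theorem emb_ext [FiniteDimensional (RatFunc K) Ω] [IsAlgClosed E] (s : E)
    (hs : Transcendental K s) : ∃ Φ : Ω →ₐ[K] E, Φ (xx K Ω) = s := by
  let f0 : K[X] →ₐ[K] E := aeval s
  have hinj : Function.Injective f0 := transcendental_iff_injective.1 hs
  let f : RatFunc K →+* E := IsFractionRing.lift (A := K[X]) (g := f0.toRingHom) hinj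
  have hf : ∀ p : K[X], f (algebraMap K[X] (RatFunc K) p) = aeval s p := fun p =>
    IsFractionRing.lift_algebraMap hinj p
  let _ : Algebra (RatFunc K) E := f.toAlgebra
  have ht : IsScalarTower K (RatFunc K) E := by
    refine .of_algebraMap_eq fun a => ?_
    change algebraMap K E a = f (algebraMap K (RatFunc K) a)
    have h1 : algebraMap K (RatFunc K) a = algebraMap K[X] (RatFunc K) (C a) := rfl
    rw [h1, hf, aeval_C]
  let g : Ω →ₐ[RatFunc K] E := IsAlgClosed.lift
  refine ⟨g.restrictScalars K, ?_⟩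
  change g (algebraMap (RatFunc K) Ω RatFunc.X) = s
  rw [g.commutes]
  change f RatFunc.X = s
  rw [← RatFunc.algebraMap_X, hf, aeval_X]

/-- Values of an embedding are algebraic over every field over which the value at `x` is. -/
theorem emb_alg [FiniteDimensional (RatFunc K) Ω] {L : Type} [Field L] [Algebra L E] [Algebra K L]
    [IsScalarTower K L E] (Φ : Ω →ₐ[K] E) (h : IsAlgebraic L (Φ (xx K Ω))) (z : Ω) :
    IsAlgebraic L (Φ z) := by
  let A : IntermediateField L E := algebraicClosure L E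
  have hA : ∀ r : RatFunc K, Φ (algebraMap (RatFunc K) Ω r) ∈ A := by
    intro r
    obtain ⟨p, q, hq, rfl⟩ := IsFractionRing.div_surjective (A := K[X]) r
    rw [map_div₀, map_div₀, emb_poly, emb_poly]
    have h1 : ∀ p : K[X], aeval (Φ (xx K Ω)) p ∈ A := by
      intro p
      rw [mem_algebraicClosure_iff]
      have h2 : aeval (Φ (xx K Ω)) p = aeval (Φ (xx K Ω)) (p.map (algebraMap K L)) := by
        rw [aeval_map_algebraMap]
      rw [h2, aeval_eq_sum_range]
      rw [← mem_algebraicClosure_iff]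
      refine sum_mem fun i _ => ?_
      rw [Algebra.smul_def, mem_algebraicClosure_iff]
      exact (isAlgebraic_algebraMap _).mul (h.pow i)
    exact div_mem (h1 p) (h1 q)
  let f : RatFunc K →+* A := (Φ.toRingHom.comp (algebraMap (RatFunc K) Ω)).codRestrict A hA
  have hz : IsIntegral (RatFunc K) z := Algebra.IsIntegral.isIntegral z
  obtain ⟨p, hp, hpz⟩ := hz
  have h3 : IsIntegral A (Φ z) := by
    refine ⟨p.map f, hp.map f, ?_⟩
    rw [eval₂_map]
    have h4 := congrArg Φ hpz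
    rw [map_zero] at h4
    rw [← h4]
    exact (hom_eval₂ p (algebraMap (RatFunc K) Ω) Φ.toRingHom z).symm
  have h5 : IsAlgebraic A (Φ z) := h3.isAlgebraic
  exact h5.restrictScalars L

/-- Automorphisms over `K₀` realising Galois automorphisms. -/
theorem emb_gal [CharZero K] [FiniteDimensional (RatFunc K) Ω] [IsGalois (RatFunc K) Ω]
    [IsAlgClosed E] (hreg : ∀ y : Ω, IsAlgebraic K y → y ∈ Set.range (algebraMap K Ω))
    {K₀ : Type} [Field K₀] [Algebra K K₀] [Algebra K₀ E] [IsScalarTower K K₀ E]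
    (Φ : Ω →ₐ[K] E) (hs : Transcendental K₀ (Φ (xx K Ω))) (γ : Ω ≃ₐ[RatFunc K] Ω) :
    ∃ τ : E ≃ₐ[K₀] E, ∀ z, τ (Φ z) = Φ (γ z) := by
  let _ : Algebra Ω E := Φ.toRingHom.toAlgebra
  let _ : Algebra (RatFunc K) E := (Φ.toRingHom.comp (algebraMap (RatFunc K) Ω)).toAlgebra
  have t1 : IsScalarTower (RatFunc K) Ω E := .of_algebraMap_eq fun _ => rfl
  have t2 : IsScalarTower K Ω E := .of_algebraMap_eq fun x => (Φ.commutes x).symm
  have t3 : IsScalarTower K (RatFunc K) E := by
    refine .of_algebraMap_eq fun x => ?_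
    rw [IsScalarTower.algebraMap_apply K Ω E, IsScalarTower.algebraMap_apply (RatFunc K) Ω E,
      ← IsScalarTower.algebraMap_apply K (RatFunc K) Ω]
  let F : IntermediateField K E := (IsScalarTower.toAlgHom K K₀ E).fieldRange
  have hF : ∀ a : K₀, algebraMap K₀ E a ∈ F := fun a => ⟨a, rfl⟩
  have hsF : Transcendental F (Φ (xx K Ω)) := by
    intro h
    apply hs
    let i : K₀ ≃+* F := (IsScalarTower.toAlgHom K K₀ E).equivFieldRange.toRingEquiv
    obtain ⟨p, hp0, hp⟩ := h
    refine ⟨p.map (i.symm : F →+* K₀), ?_, ?_⟩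
    · rw [Ne, Polynomial.map_eq_zero]; exact hp0
    · rw [aeval_def, eval₂_map]
      rw [aeval_def] at hp
      have hcomp : (algebraMap K₀ E).comp (i.symm : F →+* K₀) = algebraMap F E := by
        ext a
        obtain ⟨b, rfl⟩ := i.surjective a
        change algebraMap K₀ E (i.symm (i b)) = _
        rw [RingEquiv.symm_apply_apply]
        rfl
      rw [hcomp]
      exact hp
  obtain ⟨τ, hτ⟩ := ext_gal (K := K) (N := E) (L := Ω) hreg F (Φ (xx K Ω)) rfl hsF γ
  refine ⟨AlgEquiv.ofRingEquiv (f := τ.toRingEquiv) fun a => ?_, fun z => hτ z⟩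
  exact τ.commutes ⟨algebraMap K₀ E a, hF a⟩

end

/-- An element algebraic over `F(T)` fixed by all automorphisms over `F(T)` is in `F(T)`. -/
theorem fixed_adj {F E : Type} [Field F] [CharZero F] [Field E] [IsAlgClosed E] [Algebra F E]
    (T β : E) (hβ : IsAlgebraic (IntermediateField.adjoin F {T}) β)
    (h : ∀ σ : E ≃ₐ[F] E, σ T = T → σ β = β) :
    ∃ u v : F[X], aeval T v ≠ 0 ∧ β * aeval T v = aeval T u := by
  have h1 := fixed (k := IntermediateField.adjoin F {T}) β hβ (fun τ => by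
    refine h (τ.restrictScalars F) ?_
    exact τ.commutes (⟨T, IntermediateField.mem_adjoin_simple_self F T⟩ :
      IntermediateField.adjoin F {T}))
  obtain ⟨b, hb⟩ := h1
  have hbm : β ∈ IntermediateField.adjoin F {T} := by rw [← hb]; exact b.2
  rw [IntermediateField.mem_adjoin_simple_iff] at hbm
  obtain ⟨r, s, hrs⟩ := hbm
  by_cases hs : aeval T s = 0
  · refine ⟨0, 1, by simp, ?_⟩
    rw [hrs, hs]; simp
  · exact ⟨r, s, hs, by rw [hrs, div_mul_cancel₀ _ hs]⟩

end Pool.Agent.K3h73
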