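import Pool.Agent.K3h73.KumB

/-!
# Brick K (St_kum), part C: the products of semi-invariants
-/

set_option autoImplicit false
set_option linter.unusedSectionVars false
set_option linter.unusedSimpArgs false

namespace Pool.Agent.K3h73

open Polynomial Pool.Agent.K3h17 Pool.Agent.Y241.WR

section

variable {K Ω E : Type} [Field K] [Field Ω] [Algebra (RatFunc K) Ω] [Algebra K Ω]
  [IsScalarTower K (RatFunc K) Ω] [Field E] [Algebra K E] {K₀ : Type} [Field K₀] [Algebra K K₀]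
  [Algebra K₀ E] [IsScalarTower K K₀ E]

/-- The semi-invariant. -/
noncomputable def bb (P : Subgroup (Ω ≃ₐ[RatFunc K] Ω)) [Fintype P] (χ : P →* K₀ˣ)
    (Φ : Ω →ₐ[K] E) (z : Ω) : E :=
  ∑ p : P, algebraMap K₀ E ((χ p)⁻¹ : K₀ˣ) * Φ ((p : Ω ≃ₐ[RatFunc K] Ω) z)

theorem bb_cmp (P : Subgroup (Ω ≃ₐ[RatFunc K] Ω)) [Fintype P] (χ : P →* K₀ˣ)
    (Φ : Ω →ₐ[K] E) (z : Ω) (p' : P) :
    bb P χ (cmp Φ (p' : Ω ≃ₐ[RatFunc K] Ω)) z = algebraMap K₀ E (χ p') * bb P χ Φ z := by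
  unfold bb
  rw [Finset.mul_sum, ← Equiv.sum_comp (Equiv.mulLeft p')
    (fun q : P => algebraMap K₀ E (χ p') * (algebraMap K₀ E ((χ q)⁻¹ : K₀ˣ) *
      Φ ((q : Ω ≃ₐ[RatFunc K] Ω) z)))]
  refine Finset.sum_congr rfl fun p _ => ?_
  rw [Equiv.coe_mulLeft, cmp_apply, ← mul_assoc, ← map_mul]
  congr 2
  rw [map_mul, mul_inv, ← Units.val_mul, mul_inv_cancel_left]

theorem bb_smul (P : Subgroup (Ω ≃ₐ[RatFunc K] Ω)) [Fintype P] (χ : P →* K₀ˣ)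
    (Φ : Ω →ₐ[K] E) (z : Ω) (v : K[X]) :
    bb P χ Φ (aeval (xx K Ω) v * z) = aeval (Φ (xx K Ω)) v * bb P χ Φ z := by
  unfold bb
  rw [Finset.mul_sum]
  refine Finset.sum_congr rfl fun p _ => ?_
  rw [map_mul, map_mul, ← algebraMap_poly, AlgEquiv.commutes, emb_poly]
  ring

theorem bb_ne (P : Subgroup (Ω ≃ₐ[RatFunc K] Ω)) [Fintype P] (χ : P →* K₀ˣ)
    (Φ : Ω →ₐ[K] E) : ∃ z : Ω, bb P χ Φ z ≠ 0 := by
  by_contra hcon
  push Not at hcon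
  have hli : LinearIndependent E (fun f : Ω →* E => (f : Ω → E)) := linearIndependent_monoidHom Ω E
  let g : P → (Ω →* E) := fun p => (cmp Φ (p : Ω ≃ₐ[RatFunc K] Ω) : Ω →* E)
  have hg : Function.Injective g := by
    intro p q hpq
    apply Subtype.ext
    ext z
    have h1 := DFunLike.congr_fun hpq z
    exact Φ.injective h1
  have h2 := hli.comp g hg
  rw [Fintype.linearIndependent_iff] at h2
  have h3 := h2 (fun p => algebraMap K₀ E ((χ p)⁻¹ : K₀ˣ)) (by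
    ext z
    have h4 := hcon z
    unfold bb at h4
    simpa [g] using h4) 1
  rw [map_eq_zero] at h3
  exact Units.ne_zero _ h3

theorem bb_aut (P : Subgroup (Ω ≃ₐ[RatFunc K] Ω)) [Fintype P] (χ : P →* K₀ˣ)
    (Φ Φ' : Ω →ₐ[K] E) (z : Ω) (τ : E →+* E) (hτ : ∀ a : K₀, τ (algebraMap K₀ E a) =
      algebraMap K₀ E a) (h : ∀ z, τ (Φ z) = Φ' z) :
    τ (bb P χ Φ z) = bb P χ Φ' z := by
  unfold bb
  rw [map_sum]
  refine Finset.sum_congr rfl fun p _ => ?_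
  rw [map_mul, hτ, h]

/-- The norm. -/
noncomputable def NN (P : Subgroup (Ω ≃ₐ[RatFunc K] Ω)) [Fintype P]
    [Fintype ((Ω ≃ₐ[RatFunc K] Ω) ⧸ P)] (χ : P →* K₀ˣ) (Φ : Ω →ₐ[K] E) (z : Ω) : E :=
  ∏ q : (Ω ≃ₐ[RatFunc K] Ω) ⧸ P, bb P χ (cmp Φ q.out) z

omit [IsScalarTower K (RatFunc K) Ω] in
theorem prod_inv (P : Subgroup (Ω ≃ₐ[RatFunc K] Ω)) [Fintype ((Ω ≃ₐ[RatFunc K] Ω) ⧸ P)]
    (g : (Ω ≃ₐ[RatFunc K] Ω) → E) (hg : ∀ γ, ∀ p ∈ P, g (γ * p) = g γ)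
    (γ : Ω ≃ₐ[RatFunc K] Ω) :
    ∏ q : (Ω ≃ₐ[RatFunc K] Ω) ⧸ P, g (γ * q.out) = ∏ q : (Ω ≃ₐ[RatFunc K] Ω) ⧸ P, g q.out := by
  rw [← Equiv.prod_comp (MulAction.toPerm γ : Equiv.Perm ((Ω ≃ₐ[RatFunc K] Ω) ⧸ P))
    (fun q => g q.out)]
  refine Finset.prod_congr rfl fun q _ => ?_
  have h1 : ((γ * q.out : Ω ≃ₐ[RatFunc K] Ω) : (Ω ≃ₐ[RatFunc K] Ω) ⧸ P) =
      ((γ • q).out : (Ω ≃ₐ[RatFunc K] Ω) ⧸ P) := by
    rw [QuotientGroup.out_eq']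
    conv_rhs => rw [← QuotientGroup.out_eq' q]
    rfl
  have h2 := QuotientGroup.eq.1 h1.symm
  have h3 := hg (γ • q).out _ h2
  rw [mul_inv_cancel_left] at h3
  exact h3

theorem NN_gal (P : Subgroup (Ω ≃ₐ[RatFunc K] Ω)) [Fintype P]
    [Fintype ((Ω ≃ₐ[RatFunc K] Ω) ⧸ P)] (χ : P →* K₀ˣ) (e : ℕ) (he : ∀ p, χ p ^ e = 1)
    (Φ : Ω →ₐ[K] E) (z : Ω) (γ : Ω ≃ₐ[RatFunc K] Ω) :
    NN P χ (cmp Φ γ) z ^ e = NN P χ Φ z ^ e := by
  unfold NN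
  rw [← Finset.prod_pow, ← Finset.prod_pow]
  exact prod_inv P (fun γ => (bb P χ (cmp Φ γ) z) ^ e) (fun γ p hp => by
    have h1 := bb_cmp P χ (cmp Φ γ) z ⟨p, hp⟩
    rw [cmp_cmp] at h1
    rw [h1, mul_pow, ← map_pow, ← Units.val_pow_eq_pow_val, he, Units.val_one, map_one,
      one_mul]) γ

theorem NN_cen (P : Subgroup (Ω ≃ₐ[RatFunc K] Ω)) [Fintype P]
    [Fintype ((Ω ≃ₐ[RatFunc K] Ω) ⧸ P)] (χ : P →* K₀ˣ)
    (Φ : Ω →ₐ[K] E) (z : Ω) (γ₀ : Ω ≃ₐ[RatFunc K] Ω) (h : ∀ g : Ω ≃ₐ[RatFunc K] Ω,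
      g⁻¹ * γ₀ * g ∈ P) :
    NN P χ (cmp Φ γ₀) z = algebraMap K₀ E
      ((∏ q : (Ω ≃ₐ[RatFunc K] Ω) ⧸ P, χ ⟨q.out⁻¹ * γ₀ * q.out, h _⟩ : K₀ˣ) : K₀) *
        NN P χ Φ z := by
  unfold NN
  rw [Units.coe_prod, map_prod, ← Finset.prod_mul_distrib]
  refine Finset.prod_congr rfl fun q _ => ?_
  have h1 := bb_cmp P χ (cmp Φ q.out) z ⟨q.out⁻¹ * γ₀ * q.out, h _⟩
  rw [cmp_cmp] at h1
  rw [← h1, cmp_cmp]
  congr 2
  group

/-- Evaluation functions on the set of embeddings. -/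
def ev (K Ω E : Type) [Field K] [Field Ω] [Algebra K Ω] [Field E] [Algebra K E] :
    Ω →* ((Ω →ₐ[K] E) → E) where
  toFun z Φ := Φ z
  map_one' := by ext Φ; exact map_one Φ
  map_mul' a b := by ext Φ; exact map_mul Φ a b

omit [IsScalarTower K K₀ E] in
theorem avg [FiniteDimensional (RatFunc K) Ω] [IsGalois (RatFunc K) Ω]
    [Fintype (Ω ≃ₐ[RatFunc K] Ω)] [IsScalarTower K K₀ E]
    (f : (Ω →ₐ[K] E) → E) (hf : f ∈ Submodule.span K₀ (Set.range (ev K Ω E))) :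
    ∃ (v : K[X]) (U : K₀[X]), v ≠ 0 ∧ ∀ Φ : Ω →ₐ[K] E,
      aeval (Φ (xx K Ω)) v * ∑ γ : Ω ≃ₐ[RatFunc K] Ω, f (cmp Φ γ) = aeval (Φ (xx K Ω)) U := by
  induction hf using Submodule.span_induction with
  | mem f hf =>
    obtain ⟨w, rfl⟩ := hf
    obtain ⟨p, q, hq, hr⟩ := IsFractionRing.div_surjective (A := K[X])
      (Algebra.trace (RatFunc K) Ω w)
    have hq0 : q ≠ 0 := nonZeroDivisors.ne_zero hq
    refine ⟨q, p.map (algebraMap K K₀), hq0, fun Φ => ?_⟩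
    have h1 : ∑ γ : Ω ≃ₐ[RatFunc K] Ω, ev K Ω E w (cmp Φ γ) =
        Φ (algebraMap (RatFunc K) Ω (Algebra.trace (RatFunc K) Ω w)) := by
      rw [trace_eq_sum_automorphisms, map_sum]
      exact Finset.sum_congr (Finset.ext fun _ => by simp) fun _ _ => rfl
    have h2 : aeval (Φ (xx K Ω)) q ≠ 0 := by
      rw [← emb_poly, Ne, map_eq_zero, map_eq_zero]
      exact fun h => hq0 ((IsFractionRing.injective K[X] (RatFunc K)) (by rw [h, map_zero]))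
    rw [h1, ← hr, map_div₀, map_div₀, emb_poly, emb_poly, mul_div_cancel₀ _ h2,
      aeval_map_algebraMap]
  | zero => exact ⟨1, 0, one_ne_zero, fun Φ => by simp⟩
  | add f g _ _ hf hg =>
    obtain ⟨v, U, hv, h⟩ := hf
    obtain ⟨v', U', hv', h'⟩ := hg
    refine ⟨v * v', U * v'.map (algebraMap K K₀) + U' * v.map (algebraMap K K₀),
      mul_ne_zero hv hv', fun Φ => ?_⟩
    simp only [Pi.add_apply, Finset.sum_add_distrib, map_mul, map_add, aeval_map_algebraMap,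
      ← h Φ, ← h' Φ]
    ring
  | smul c f _ hf =>
    obtain ⟨v, U, hv, h⟩ := hf
    refine ⟨v, C c * U, hv, fun Φ => ?_⟩
    simp only [Pi.smul_apply, Algebra.smul_def, ← Finset.mul_sum, map_mul, aeval_C, ← h Φ]
    ring

omit [Algebra (RatFunc K) Ω] [IsScalarTower K (RatFunc K) Ω] [Algebra K K₀]
  [IsScalarTower K K₀ E] in
theorem adj_span : (Algebra.adjoin K₀ (Set.range (ev K Ω E))).toSubmodule =
    Submodule.span K₀ (Set.range (ev K Ω E)) := by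
  rw [Algebra.adjoin_eq_span]
  congr 1
  have : (Set.range (ev K Ω E)) = (MonoidHom.mrange (ev K Ω E) : Set _) := rfl
  rw [this, Submonoid.closure_eq]

theorem NN_mem (P : Subgroup (Ω ≃ₐ[RatFunc K] Ω)) [Fintype P]
    [Fintype ((Ω ≃ₐ[RatFunc K] Ω) ⧸ P)] (χ : P →* K₀ˣ) (z : Ω) (e : ℕ) :
    (fun Φ : Ω →ₐ[K] E => NN P χ Φ z ^ e) ∈ Submodule.span K₀ (Set.range (ev K Ω E)) := by
  rw [← adj_span, Subalgebra.mem_toSubmodule]
  have h1 : (fun Φ : Ω →ₐ[K] E => NN P χ Φ z ^ e) =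
      (∏ q : (Ω ≃ₐ[RatFunc K] Ω) ⧸ P, ∑ p : P, ((((χ p)⁻¹ : K₀ˣ) : K₀) •
        (ev K Ω E ((q.out : Ω ≃ₐ[RatFunc K] Ω) ((p : Ω ≃ₐ[RatFunc K] Ω) z))))) ^ e := by
    ext Φ
    simp only [Pi.pow_apply, Finset.prod_apply, Finset.sum_apply, Pi.smul_apply, NN, bb,
      Algebra.smul_def]
    rfl
  rw [h1]
  refine pow_mem (prod_mem fun q _ => sum_mem fun p _ => ?_) _
  exact Subalgebra.smul_mem _ (Algebra.subset_adjoin (Set.mem_range_self _)) _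

/-- The norm is, up to the choice of `z`, a polynomial in `x` with coefficients in `K₀`. -/
theorem NN_poly [CharZero K] [FiniteDimensional (RatFunc K) Ω] [IsGalois (RatFunc K) Ω]
    (P : Subgroup (Ω ≃ₐ[RatFunc K] Ω)) [Fintype P] [Fintype ((Ω ≃ₐ[RatFunc K] Ω) ⧸ P)]
    (χ : P →* K₀ˣ) (e : ℕ) (he0 : e ≠ 0) (he : ∀ p, χ p ^ e = 1) (z : Ω) (Φ₀ : Ω →ₐ[K] E)
    (hz : NN P χ Φ₀ z ≠ 0) :
    ∃ (z' : Ω) (R : K₀[X]), NN P χ Φ₀ z' ≠ 0 ∧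
      ∀ Φ : Ω →ₐ[K] E, NN P χ Φ z' ^ e = aeval (Φ (xx K Ω)) R := by
  classical
  let _ : Fintype (Ω ≃ₐ[RatFunc K] Ω) := Fintype.ofFinite _
  obtain ⟨v, U, hv, h⟩ := avg (K := K) (E := E) _ (NN_mem (K := K) (E := E) P χ z e)
  set m := Fintype.card ((Ω ≃ₐ[RatFunc K] Ω) ⧸ P) with hm
  have hm0 : 0 < m := Fintype.card_pos
  set N : ℕ := Fintype.card (Ω ≃ₐ[RatFunc K] Ω) with hN
  have hN0 : (N : K) ≠ 0 := by
    rw [Nat.cast_ne_zero, hN]; exact Fintype.card_ne_zero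
  have h1 : ∀ Φ : Ω →ₐ[K] E, aeval (Φ (xx K Ω)) v * ((N : E) * NN P χ Φ z ^ e) =
      aeval (Φ (xx K Ω)) U := by
    intro Φ
    rw [← h Φ]
    congr 1
    simp only [NN_gal P χ e he, Finset.sum_const, nsmul_eq_mul]
    rfl
  have hsm : ∀ Φ : Ω →ₐ[K] E, NN P χ Φ (aeval (xx K Ω) v * z) =
      aeval (Φ (xx K Ω)) v ^ m * NN P χ Φ z := by
    intro Φ
    unfold NN
    simp only [bb_smul, cmp_apply, gal_xx, Finset.prod_mul_distrib, Finset.prod_const,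
      Finset.card_univ]
    rfl
  have hvne : ∀ Φ : Ω →ₐ[K] E, aeval (Φ (xx K Ω)) v ≠ 0 := by
    intro Φ
    rw [← emb_poly, Ne, map_eq_zero, map_eq_zero]
    exact fun h => hv ((IsFractionRing.injective K[X] (RatFunc K)) (by rw [h, map_zero]))
  refine ⟨aeval (xx K Ω) v * z, C (algebraMap K K₀ (N : K)⁻¹) *
    (v ^ (m * e - 1)).map (algebraMap K K₀) * U, ?_, fun Φ => ?_⟩
  · rw [hsm]
    exact mul_ne_zero (pow_ne_zero _ (hvne _)) hz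
  · rw [hsm, mul_pow, ← pow_mul, map_mul, map_mul, aeval_map_algebraMap, ← h1 Φ, aeval_C,
      ← IsScalarTower.algebraMap_apply, map_pow, map_inv₀, map_natCast]
    have h2 : (N : E) ≠ 0 := by
      have := (map_ne_zero (algebraMap K E)).2 hN0
      rwa [map_natCast] at this
    have h3 : m * e = (m * e - 1) + 1 := by
      have : 0 < m * e := Nat.mul_pos hm0 (Nat.pos_of_ne_zero he0)
      omega
    rw [h3, pow_succ]
    simp only [Nat.add_sub_cancel]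
    field_simp

end

end Pool.Agent.K3h73
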